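import Pool.Agent.Hhelper68.CS.FamNet

/-!
Variables which are constant on cells, and the test of the contents of the cells.
-/

set_option autoImplicit false
set_option linter.unusedSectionVars false

open scoped BigOperators
open Matrix

namespace Pool.Agent.Hhelper68.AM

open Pool.Agent.Hhelper96.PEPS

/-- interpolation: the indicator of a value as a combination of powers -/
theorem interp (M n : ℕ) : ∃ (lam : Fin M → Fin (n + 1) → ℂ) (zz : Fin M → ℂ),
    ∀ x < M, ∀ β : Fin (n + 1), ∑ a, lam a β * zz a ^ x = if x = (β : ℕ) then 1 else 0 := by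
  obtain ⟨V, hV⟩ : ∃ V : Matrix (Fin M) (Fin M) ℂ, V = Matrix.vandermonde (fun a => ((a : ℕ) : ℂ)) :=
    ⟨_, rfl⟩
  have hdet : V.det ≠ 0 := by
    rw [hV, Matrix.det_vandermonde_ne_zero_iff]
    intro a b h
    beta_reduce at h
    exact Fin.ext (by exact_mod_cast h)
  have h1 : V⁻¹ * V = 1 := Matrix.nonsing_inv_mul V (isUnit_iff_ne_zero.2 hdet)
  refine ⟨fun a β => if h : (β : ℕ) < M then V⁻¹ ⟨β, h⟩ a else 0, fun a => ((a : ℕ) : ℂ), ?_⟩
  intro x hx β
  by_cases hβ : (β : ℕ) < M
  · have h2 := congrFun (congrFun h1 ⟨β, hβ⟩) ⟨x, hx⟩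
    rw [Matrix.mul_apply, Matrix.one_apply] at h2
    have h3 : ∀ a : Fin M, V a ⟨x, hx⟩ = ((a : ℕ) : ℂ) ^ x := by
      intro a
      rw [hV, Matrix.vandermonde_apply]
    simp only [h3] at h2
    simp only [dif_pos hβ]
    rw [h2]
    by_cases h4 : x = (β : ℕ)
    · rw [if_pos h4, if_pos (Fin.ext h4.symm)]
    · rw [if_neg h4, if_neg]
      intro h5
      exact h4 (congrArg Fin.val h5).symm
  · simp only [dif_neg hβ, zero_mul, Finset.sum_const_zero]
    rw [if_neg]
    omega

section cells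

variable {N : ℕ} [NeZero N] {Cl : Type} [DecidableEq Cl] (cl : ℕ → Site N → Cl) (K : ℕ)

/-- the cells -/
def Qt : Finset Cl := Finset.univ.image (fun x : Fin (K + 1) × Site N => cl x.1 x.2)

theorem mem_Qt (k : Fin (K + 1)) (u : Site N) : cl k u ∈ Qt cl K :=
  Finset.mem_image.2 ⟨(k, u), Finset.mem_univ _, rfl⟩

/-- the local consistency of the cell variables -/
def consP {Z : Type} (v : Site N) (l m c : Fin (K + 1) → Z) : Prop :=
  ∀ k : Fin (K + 1), (cl k v = cl k (v - (1, 0)) → c k = l k) ∧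
    (cl k v = cl k (v - (0, 1)) → c k = m k)

variable {cl K}

open Classical in
/-- **sum over variables which are constant on cells** -/
theorem cell_sum (hinj : ∀ j j' u u', cl j u = cl j' u' → j = j')
    (hconn : ∀ k (P : Site N → Prop), (∀ u, cl k u = cl k (u - (1, 0)) → (P u ↔ P (u - (1, 0)))) →
      (∀ u, cl k u = cl k (u - (0, 1)) → (P u ↔ P (u - (0, 1)))) →
      ∀ u u', cl k u = cl k u' → (P u ↔ P u')) {Z : Type} [Fintype Z] [DecidableEq Z]
    (F : Site N → (Fin (K + 1) → Z) → ℂ) :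
    ∑ z : Site N → Fin (K + 1) → Z, ∏ v, (if consP cl K v (z (v - (1, 0))) (z (v - (0, 1))) (z v)
      then F v (z v) else 0) =
    ∑ ζ : (Qt cl K) → Z, ∏ v, F v (fun k => ζ ⟨cl k v, mem_Qt cl K k v⟩) := by
  have hR : ∑ z : Site N → Fin (K + 1) → Z, ∏ v, (if consP cl K v (z (v - (1, 0)))
      (z (v - (0, 1))) (z v) then F v (z v) else 0) =
      ∑ z ∈ Finset.univ.filter (fun z : Site N → Fin (K + 1) → Z => ∀ v, consP cl K v
        (z (v - (1, 0))) (z (v - (0, 1))) (z v)), ∏ v, F v (z v) := by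
    rw [Finset.sum_filter]
    refine Finset.sum_congr rfl (fun z _ => ?_)
    by_cases h : ∀ v, consP cl K v (z (v - (1, 0))) (z (v - (0, 1))) (z v)
    · rw [if_pos h]
      exact Finset.prod_congr rfl (fun v _ => if_pos (h v))
    · rw [if_neg h]
      push Not at h
      obtain ⟨v, hv⟩ := h
      exact Finset.prod_eq_zero (Finset.mem_univ v) (if_neg hv)
  rw [hR]
  -- representatives
  have hrep : ∀ c : Qt cl K, ∃ x : Fin (K + 1) × Site N, cl x.1 x.2 = c.1 := by
    intro c
    obtain ⟨x, -, hx⟩ := Finset.mem_image.1 c.2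
    exact ⟨x, hx⟩
  choose rep hrep using hrep
  refine Finset.sum_bij' (fun z _ c => z (rep c).2 (rep c).1)
    (fun ζ _ v k => ζ ⟨cl k v, mem_Qt cl K k v⟩) ?_ ?_ ?_ ?_ ?_
  · intro z _
    exact Finset.mem_univ _
  · intro ζ _
    simp only [Finset.mem_filter, Finset.mem_univ, true_and]
    intro v k
    refine ⟨fun h => ?_, fun h => ?_⟩
    · exact congrArg ζ (Subtype.ext h)
    · exact congrArg ζ (Subtype.ext h)
  · intro z hz
    simp only [Finset.mem_filter, Finset.mem_univ, true_and] at hz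
    funext v k
    beta_reduce
    obtain ⟨c, hc⟩ : ∃ c : Qt cl K, c = ⟨cl k v, mem_Qt cl K k v⟩ := ⟨_, rfl⟩
    rw [← hc]
    have h1 : cl (rep c).1 (rep c).2 = cl k v := by rw [hrep c, hc]
    have h2 : (rep c).1 = k := Fin.ext (hinj _ _ _ _ h1)
    rw [h2] at h1 ⊢
    refine (hconn k (fun u => z u k = z v k) ?_ ?_ (rep c).2 v h1).2 rfl
    · intro u hu
      rw [((hz u k).1 hu)]
    · intro u hu
      rw [((hz u k).2 hu)]
  · intro ζ _
    funext c
    exact congrArg ζ (Subtype.ext (hrep c))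
  · intro z hz
    simp only [Finset.mem_filter, Finset.mem_univ, true_and] at hz
    refine Finset.prod_congr rfl (fun v _ => ?_)
    congr 1
    funext k
    beta_reduce
    obtain ⟨c, hc⟩ : ∃ c : Qt cl K, c = ⟨cl k v, mem_Qt cl K k v⟩ := ⟨_, rfl⟩
    rw [← hc]
    have h1 : cl (rep c).1 (rep c).2 = cl k v := by rw [hrep c, hc]
    have h2 : (rep c).1 = k := Fin.ext (hinj _ _ _ _ h1)
    rw [h2] at h1 ⊢
    refine ((hconn k (fun u => z u k = z v k) ?_ ?_ (rep c).2 v h1).2 rfl).symm
    · intro u hu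
      rw [((hz u k).1 hu)]
    · intro u hu
      rw [((hz u k).2 hu)]

variable (cl K)

/-- the content of a cell -/
def bC (pay : Site N → Fin (K + 1) → ℕ) (c : Cl) : ℕ :=
  ∑ x : Fin (K + 1) × Site N, if cl x.1 x.2 = c then pay x.2 x.1 else 0

open Classical in
/-- the local factor of the cell variables -/
noncomputable def cellF {n M : ℕ} (P : Site N → (Fin (K + 1) → ℕ) → Prop)
    (lam : Fin M → Fin (n + 1) → ℂ) (zz : Fin M → ℂ) (rt : Cl → Site N) (v : Site N)
    (pay : Fin (K + 1) → ℕ) (x : Fin (K + 1) → Fin (n + 1) × Fin M) : ℂ :=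
  (if P v (fun k => ((x k).1 : ℕ)) then 1 else 0) *
    ∏ k : Fin (K + 1), ((if v = rt (cl k v) then lam (x k).2 (x k).1 else 1) * zz (x k).2 ^ (pay k))

variable {cl K}

open Classical in
/-- **the test of the contents** -/
theorem cell_test (hinj : ∀ j j' u u', cl j u = cl j' u' → j = j')
    (hconn : ∀ k (P : Site N → Prop), (∀ u, cl k u = cl k (u - (1, 0)) → (P u ↔ P (u - (1, 0)))) →
      (∀ u, cl k u = cl k (u - (0, 1)) → (P u ↔ P (u - (0, 1)))) →
      ∀ u u', cl k u = cl k u' → (P u ↔ P u')) {n M : ℕ}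
    (P : Site N → (Fin (K + 1) → ℕ) → Prop) (hP : ∀ v β, P v β → ∀ k, β k ≤ n)
    {lam : Fin M → Fin (n + 1) → ℂ} {zz : Fin M → ℂ}
    (hlam : ∀ x < M, ∀ β : Fin (n + 1), ∑ a, lam a β * zz a ^ x = if x = (β : ℕ) then 1 else 0)
    {rt : Cl → Site N} (hrt : ∀ c ∈ Qt cl K, ∃ k : Fin (K + 1), cl k (rt c) = c)
    (pay : Site N → Fin (K + 1) → ℕ) (hb : ∀ (k : Fin (K + 1)) v, bC cl K pay (cl k v) < M) :
    ∑ z : Site N → Fin (K + 1) → Fin (n + 1) × Fin M, ∏ v,
      (if consP cl K v (z (v - (1, 0))) (z (v - (0, 1))) (z v)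
        then cellF cl K P lam zz rt v (pay v) (z v) else 0) =
    if ∀ v, P v (fun k => bC cl K pay (cl k v)) then 1 else 0 := by
  rw [cell_sum hinj hconn (F := fun v x => cellF cl K P lam zz rt v (pay v) x)]
  -- the product over sites as a product over cells
  have h1 : ∀ ζ : Qt cl K → Fin (n + 1) × Fin M,
      ∏ v, cellF cl K P lam zz rt v (pay v) (fun k => ζ ⟨cl k v, mem_Qt cl K k v⟩) =
      (if ∀ v, P v (fun k => ((ζ ⟨cl k v, mem_Qt cl K k v⟩).1 : ℕ)) then 1 else 0) *
      ∏ c : Qt cl K, (lam (ζ c).2 (ζ c).1 * zz (ζ c).2 ^ (bC cl K pay c.1)) := by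
    intro ζ
    unfold cellF
    rw [Finset.prod_mul_distrib]
    congr 1
    · by_cases h : ∀ v, P v (fun k => ((ζ ⟨cl k v, mem_Qt cl K k v⟩).1 : ℕ))
      · rw [if_pos h]
        refine Finset.prod_eq_one (fun v _ => ?_)
        exact if_pos (h v)
      · rw [if_neg h]
        push Not at h
        obtain ⟨v, hv⟩ := h
        refine Finset.prod_eq_zero (Finset.mem_univ v) ?_
        exact if_neg hv
    · rw [← Finset.prod_product', Finset.univ_product_univ]
      rw [← Finset.prod_fiberwise (s := (Finset.univ : Finset (Site N × Fin (K + 1))))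
        (g := fun x => (⟨cl x.2 x.1, mem_Qt cl K x.2 x.1⟩ : Qt cl K))]
      refine Finset.prod_congr rfl (fun c _ => ?_)
      rw [Finset.prod_mul_distrib]
      obtain ⟨k₀, hk₀⟩ := hrt c.1 c.2
      congr 1
      · have h2 : (rt c.1, k₀) ∈ (Finset.univ : Finset (Site N × Fin (K + 1))).filter
            (fun x => (⟨cl x.2 x.1, mem_Qt cl K x.2 x.1⟩ : Qt cl K) = c) := by
          simp only [Finset.mem_filter, Finset.mem_univ, true_and]
          exact Subtype.ext hk₀
        rw [Finset.prod_eq_single_of_mem _ h2]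
        · rw [hk₀, if_pos rfl]
          have e : (⟨cl k₀ (rt c.1), mem_Qt cl K k₀ (rt c.1)⟩ : Qt cl K) = c := Subtype.ext hk₀
          beta_reduce
          change lam (ζ ⟨cl k₀ (rt c.1), mem_Qt cl K k₀ (rt c.1)⟩).2
            (ζ ⟨cl k₀ (rt c.1), mem_Qt cl K k₀ (rt c.1)⟩).1 = _
          rw [e]
        · intro x hx hne
          simp only [Finset.mem_filter, Finset.mem_univ, true_and] at hx
          have hx' : cl x.2 x.1 = c.1 := congrArg Subtype.val hx
          rw [if_neg]
          intro h3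
          rw [hx'] at h3
          apply hne
          refine Prod.ext h3 ?_
          apply Fin.ext
          apply hinj _ _ x.1 (rt c.1)
          rw [hk₀, hx']
      · have h2 : ∀ x ∈ (Finset.univ : Finset (Site N × Fin (K + 1))).filter
            (fun x => (⟨cl x.2 x.1, mem_Qt cl K x.2 x.1⟩ : Qt cl K) = c),
            zz (ζ ⟨cl x.2 x.1, mem_Qt cl K x.2 x.1⟩).2 ^ pay x.1 x.2 =
              zz (ζ c).2 ^ pay x.1 x.2 := by
          intro x hx
          simp only [Finset.mem_filter, Finset.mem_univ, true_and] at hx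
          rw [hx]
        rw [Finset.prod_congr rfl h2, Finset.prod_pow_eq_pow_sum]
        congr 1
        unfold bC
        rw [← Finset.sum_filter]
        refine Finset.sum_bij' (fun x _ => (x.2, x.1)) (fun x _ => (x.2, x.1)) ?_ ?_ ?_ ?_ ?_
        · intro x hx
          simp only [Finset.mem_filter, Finset.mem_univ, true_and] at hx ⊢
          exact congrArg Subtype.val hx
        · intro x hx
          simp only [Finset.mem_filter, Finset.mem_univ, true_and] at hx ⊢
          exact Subtype.ext hx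
        · intro x _
          rfl
        · intro x _
          rfl
        · intro x _
          rfl
  rw [Finset.sum_congr rfl (fun ζ _ => h1 ζ)]
  -- separate the variables
  rw [← (Equiv.arrowProdEquivProdArrow (Qt cl K) (fun _ => Fin (n + 1))
    (fun _ => Fin M)).symm.sum_comp, Fintype.sum_prod_type]
  have h2 : ∀ β : Qt cl K → Fin (n + 1), ∑ a : Qt cl K → Fin M,
      ((if ∀ v, P v (fun k => (β ⟨cl k v, mem_Qt cl K k v⟩ : ℕ)) then (1 : ℂ) else 0) *
      ∏ c : Qt cl K, (lam (a c) (β c) * zz (a c) ^ (bC cl K pay c.1))) =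
      (if ∀ v, P v (fun k => (β ⟨cl k v, mem_Qt cl K k v⟩ : ℕ)) then (1 : ℂ) else 0) *
      (if ∀ c : Qt cl K, bC cl K pay c.1 = (β c : ℕ) then 1 else 0) := by
    intro β
    rw [← Finset.mul_sum]
    congr 1
    have h3 := (Finset.prod_univ_sum (κ := fun _ : Qt cl K => Fin M)
      (fun _ => (Finset.univ : Finset (Fin M)))
      (fun (c : Qt cl K) (a : Fin M) => lam a (β c) * zz a ^ (bC cl K pay c.1))).symm
    rw [Fintype.piFinset_univ] at h3
    rw [h3]
    have h4 : ∀ c : Qt cl K, ∑ a : Fin M, lam a (β c) * zz a ^ (bC cl K pay c.1) =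
        if bC cl K pay c.1 = (β c : ℕ) then 1 else 0 := by
      intro c
      apply hlam
      obtain ⟨k₀, hk₀⟩ := hrt c.1 c.2
      rw [← hk₀]
      exact hb _ _
    rw [Finset.prod_congr rfl (fun c _ => h4 c)]
    by_cases h : ∀ c : Qt cl K, bC cl K pay c.1 = (β c : ℕ)
    · rw [if_pos h]
      exact Finset.prod_eq_one (fun c _ => if_pos (h c))
    · rw [if_neg h]
      push Not at h
      obtain ⟨c, hc⟩ := h
      exact Finset.prod_eq_zero (Finset.mem_univ c) (if_neg hc)
  refine (Finset.sum_congr rfl (fun β _ => h2 β)).trans ?_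
  by_cases h : ∀ v, P v (fun k => bC cl K pay (cl k v))
  · rw [if_pos h]
    have h3 : ∀ c : Qt cl K, bC cl K pay c.1 < n + 1 := by
      intro c
      obtain ⟨k₀, hk₀⟩ := hrt c.1 c.2
      have h4 := hP _ _ (h (rt c.1)) k₀
      rw [hk₀] at h4
      omega
    rw [Finset.sum_eq_single (fun c => ⟨bC cl K pay c.1, h3 c⟩)]
    · rw [if_pos (fun c => rfl), if_pos, one_mul]
      exact h
    · intro β _ hne
      have h5 : ¬ ∀ c : Qt cl K, bC cl K pay c.1 = (β c : ℕ) := by
        intro h4
        apply hne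
        funext c
        exact Fin.ext (h4 c).symm
      rw [if_neg h5, mul_zero]
    · intro h4
      exact absurd (Finset.mem_univ _) h4
  · rw [if_neg h]
    apply Finset.sum_eq_zero
    intro β _
    by_cases h4 : ∀ c : Qt cl K, bC cl K pay c.1 = (β c : ℕ)
    · have h8 : ¬ ∀ v, P v (fun k : Fin (K + 1) => (β ⟨cl k v, mem_Qt cl K k v⟩ : ℕ)) := by
        intro h5
        apply h
        intro v
        have h6 := h5 v
        have h7 : (fun k : Fin (K + 1) => bC cl K pay (cl k v)) =
            fun k : Fin (K + 1) => (β ⟨cl k v, mem_Qt cl K k v⟩ : ℕ) := by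
          funext k
          exact h4 ⟨cl k v, mem_Qt cl K k v⟩
        rw [h7]
        exact h6
      rw [if_neg h8, zero_mul]
    · rw [if_neg h4, mul_zero]

end cells

end Pool.Agent.Hhelper68.AM
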