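import Pool.Agent.Hhelper68.AM.FamSum
import Pool.Agent.Hhelper68.AM.Cells
import Pool.Agent.Hhelper82.AM.Tup

/-!
The operator network of the sum over configurations with bounded contents.
-/

set_option autoImplicit false
set_option linter.unusedSectionVars false
set_option synthInstance.maxSize 2048

open scoped BigOperators ComplexOrder
open Matrix

namespace Pool.Agent.Hhelper68.AM

open Pool.Agent.Hhelper96.PEPS

section asm

variable {N d : ℕ} [NeZero N] {ι : Type} [Fintype ι] [DecidableEq ι]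
  {Cl : Type} [DecidableEq Cl]

/-- the size of a label -/
def szL (sz : ι → ℕ) : FLab N d ι → ℕ
  | none => 0
  | some x => sz x.1

/-- what a label pays at a site for the cell of level `k` -/
def pay1 {K : ℕ} (cl : ℕ → Site N → Cl) (lv sz : ι → ℕ) (st : ι → Cl → Site N) (v : Site N)
    (k : Fin (K + 1)) : FLab N d ι → ℕ
  | none => 0
  | some x => if lv x.1 = k ∧ v = st x.1 (cl k v) then sz x.1 else 0

theorem szL_none (sz : ι → ℕ) : szL (N := N) (d := d) sz none = 0 := rfl

theorem szL_some (sz : ι → ℕ) (x : ι × (Site N → Fin d) × (Site N → Fin d)) :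
    szL sz (some x) = sz x.1 := rfl

theorem pay1_none {K : ℕ} (cl : ℕ → Site N → Cl) (lv sz : ι → ℕ) (st : ι → Cl → Site N)
    (v : Site N) (k : Fin (K + 1)) : pay1 (d := d) cl lv sz st v k none = 0 := rfl

theorem pay1_some {K : ℕ} (cl : ℕ → Site N → Cl) (lv sz : ι → ℕ) (st : ι → Cl → Site N)
    (v : Site N) (k : Fin (K + 1)) (x : ι × (Site N → Fin d) × (Site N → Fin d)) :
    pay1 cl lv sz st v k (some x) = if lv x.1 = k ∧ v = st x.1 (cl k v) then sz x.1 else 0 := rfl

theorem pay1_le {K : ℕ} (cl : ℕ → Site N → Cl) (lv sz : ι → ℕ) (st : ι → Cl → Site N)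
    (v : Site N) (k : Fin (K + 1)) (l : FLab N d ι) : pay1 cl lv sz st v k l ≤ szL sz l := by
  cases l with
  | none => exact le_rfl
  | some x =>
    rw [pay1_some, szL_some]
    split_ifs
    · exact le_rfl
    · exact Nat.zero_le _

/-- the content of a cell -/
noncomputable def ct (supp : ι → Finset (Site N)) (cl : ℕ → Site N → Cl) (lv sz : ι → ℕ) {p : ℕ}
    (D : Fin p → Finset ι) (c : Cl) : ℕ :=
  ∑ j, ∑ i ∈ D j, if ∃ u ∈ supp i, cl (lv i) u = c then sz i else 0

variable {supp : ι → Finset (Site N)} {cl : ℕ → Site N → Cl} {lv sz : ι → ℕ}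
  {st : ι → Cl → Site N} {K p : ℕ}

/-- the content of a cell of level `k` -/
theorem bC_level (hinj : ∀ j j' u u', cl j u = cl j' u' → j = j')
    (pay : Site N → Fin (K + 1) → ℕ) (k : Fin (K + 1)) (v : Site N) :
    bC cl K pay (cl k v) = ∑ u ∈ Finset.univ.filter (fun u => cl k u = cl k v), pay u k := by
  unfold bC
  rw [Fintype.sum_prod_type, Finset.sum_eq_single k]
  · rw [Finset.sum_filter]
  · intro k' _ hne
    apply Finset.sum_eq_zero
    intro u _
    rw [if_neg]
    intro h
    exact hne (Fin.ext (hinj _ _ _ _ h))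
  · intro h
    exact absurd (Finset.mem_univ _) h

/-- the bound on the contents -/
theorem bC_le (hinj : ∀ j j' u u', cl j u = cl j' u' → j = j') {ar n : ℕ}
    (har : ∀ (k : Fin (K + 1)) v, (Finset.univ.filter (fun u => cl k u = cl k v)).card ≤ ar)
    (pay : Site N → Fin (K + 1) → ℕ) (hpay : ∀ v k, pay v k ≤ n) (k : Fin (K + 1)) (v : Site N) :
    bC cl K pay (cl k v) ≤ ar * n := by
  rw [bC_level hinj]
  calc ∑ u ∈ Finset.univ.filter (fun u => cl k u = cl k v), pay u k
      ≤ ∑ _u ∈ Finset.univ.filter (fun u => cl k u = cl k v), n :=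
        Finset.sum_le_sum (fun u _ => hpay u k)
    _ = (Finset.univ.filter (fun u => cl k u = cl k v)).card * n := by
        rw [Finset.sum_const, smul_eq_mul]
    _ ≤ ar * n := Nat.mul_le_mul_right _ (har k v)

open Classical in
/-- the payments of a family give its contents -/
theorem pay_fam (hst : ∀ i c, (∃ u ∈ supp i, cl (lv i) u = c) →
      st i c ∈ supp i ∧ cl (lv i) (st i c) = c) {z : Fin d} {s s' : Site N → Fin d}
    {D : Finset ι} (hD : DisjF supp D) (k : Fin (K + 1)) (v : Site N)
    (hinj : ∀ j j' u u', cl j u = cl j' u' → j = j') :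
    ∑ u ∈ Finset.univ.filter (fun u => cl k u = cl k v),
      pay1 cl lv sz st u k (famLab supp z s s' D u) =
    ∑ i ∈ D, if ∃ u ∈ supp i, cl (lv i) u = cl k v then sz i else 0 := by
  have h1 : ∀ u, pay1 cl lv sz st u k (famLab supp z s s' D u) =
      ∑ i ∈ D, if u ∈ supp i ∧ lv i = k ∧ u = st i (cl k u) then sz i else 0 := by
    intro u
    rcases famLab_cases (z := z) (s := s) (s' := s') hD u with ⟨i, hi, hu, h2⟩ | ⟨h2, h3⟩
    · rw [h2, Finset.sum_eq_single i]
      · rw [pay1_some]
        by_cases h4 : lv i = k ∧ u = st i (cl k u)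
        · rw [if_pos h4, if_pos ⟨hu, h4⟩]
        · rw [if_neg h4, if_neg (fun h5 => h4 h5.2)]
      · intro i' hi' hne
        rw [if_neg]
        intro h4
        exact Finset.disjoint_left.1 (hD i' hi' i hi hne) h4.1 hu
      · intro h4
        exact absurd hi h4
    · rw [h3, pay1_none]
      symm
      apply Finset.sum_eq_zero
      intro i hi
      rw [if_neg]
      intro h4
      exact h2 i hi h4.1
  rw [Finset.sum_congr rfl (fun u _ => h1 u), Finset.sum_comm]
  refine Finset.sum_congr rfl (fun i hi => ?_)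
  by_cases h2 : ∃ u ∈ supp i, cl (lv i) u = cl k v
  · rw [if_pos h2]
    obtain ⟨h3, h4⟩ := hst i _ h2
    obtain ⟨u0, hu0, h5⟩ := h2
    have h6 : lv i = k := hinj _ _ _ _ h5
    rw [h6] at h4
    rw [Finset.sum_eq_single_of_mem (st i (cl k v))]
    · rw [if_pos]
      refine ⟨h3, h6, ?_⟩
      rw [h4]
    · simp only [Finset.mem_filter, Finset.mem_univ, true_and]
      exact h4
    · intro u hu hne
      simp only [Finset.mem_filter, Finset.mem_univ, true_and] at hu
      rw [if_neg]
      rintro ⟨-, -, h7⟩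
      rw [hu] at h7
      exact hne h7
  · rw [if_neg h2]
    apply Finset.sum_eq_zero
    intro u hu
    simp only [Finset.mem_filter, Finset.mem_univ, true_and] at hu
    rw [if_neg]
    rintro ⟨h3, h4, -⟩
    exact h2 ⟨u, h3, by rw [h4, hu]⟩

open Classical in
/-- the size seen at a site is at most the sum of the contents of its cells -/
theorem size_fam (hlv : ∀ i, lv i ≤ K) {z : Fin d} {t t' : Fin p → Site N → Fin d}
    {D : Fin p → Finset ι} (hD : ∀ j, DisjF supp (D j)) (v : Site N) :
    ∑ j, szL sz (famLab supp z (t j) (t' j) (D j) v) ≤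
      ∑ k : Fin (K + 1), ct supp cl lv sz D (cl k v) := by
  unfold ct
  rw [Finset.sum_comm]
  refine Finset.sum_le_sum (fun j _ => ?_)
  rcases famLab_cases (z := z) (s := t j) (s' := t' j) (hD j) v with ⟨i, hi, hv, h2⟩ | ⟨h2, h3⟩
  · rw [h2, szL_some]
    have hk : lv i < K + 1 := Nat.lt_succ_of_le (hlv i)
    calc sz i = if ∃ u ∈ supp i, cl (lv i) u = cl ((⟨lv i, hk⟩ : Fin (K + 1)) : ℕ) v then
          sz i else 0 := by
          rw [if_pos]
          exact ⟨v, hv, rfl⟩
      _ ≤ ∑ i' ∈ D j, if ∃ u ∈ supp i', cl (lv i') u =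
            cl ((⟨lv i, hk⟩ : Fin (K + 1)) : ℕ) v then sz i' else 0 :=
          Finset.single_le_sum (f := fun i' => if ∃ u ∈ supp i', cl (lv i') u =
            cl ((⟨lv i, hk⟩ : Fin (K + 1)) : ℕ) v then sz i' else 0)
            (fun _ _ => Nat.zero_le _) hi
      _ ≤ _ := Finset.single_le_sum (f := fun k : Fin (K + 1) => ∑ i' ∈ D j,
            if ∃ u ∈ supp i', cl (lv i') u = cl k v then sz i' else 0)
            (fun _ _ => Nat.zero_le _) (Finset.mem_univ _)
  · rw [h3]
    exact Nat.zero_le _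

open Classical in
/-- the admissible labels of a slice at a site -/
noncomputable def A0 (supp : ι → Finset (Site N)) (z : Fin d) (v : Site N) :
    Finset (FLab N d ι) :=
  insert none ((Finset.univ.filter (fun x : ι × (Site N → Fin d) × (Site N → Fin d) =>
    v ∈ supp x.1 ∧ canon supp z x)).image some)

theorem chkW_zero {z : Fin d} {root : ι → Site N} {g : ι → (Site N → Fin d) → (Site N → Fin d) → ℂ}
    {v : Site N} {a b : Fin d} {l m c : FLab N d ι} (h : c ∉ A0 supp z v) :
    chkW supp z root g v a b l m c = 0 := by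
  unfold chkW
  rw [if_neg]
  intro hchk
  apply h
  unfold A0
  simp only [Finset.mem_insert, Finset.mem_image]
  cases c with
  | none => exact Or.inl rfl
  | some x =>
    refine Or.inr ⟨x, ?_, rfl⟩
    simp only [Finset.mem_filter, Finset.mem_univ, true_and]
    have := hchk.2.1 x rfl
    exact ⟨this.1, this.2.1⟩

/-- the labels of the network -/
abbrev YY (N d : ℕ) (ι : Type) (p K n M : ℕ) : Type :=
  (Fin p → FLab N d ι) × (Fin (p + 1) → Fin d) × (Fin (K + 1) → Fin (n + 1) × Fin M)

/-- transposition of the labels -/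
def eqY (S A B C : Type) (p q : ℕ) : (S → (Fin p → A) × (Fin q → B) × C) ≃
    (Fin p → S → A) × (Fin q → S → B) × (S → C) where
  toFun y := (fun j v => (y v).1 j, fun j v => (y v).2.1 j, fun v => (y v).2.2)
  invFun x := fun v => (fun j => x.1 j v, fun j => x.2.1 j v, x.2.2 v)
  left_inv _ := rfl
  right_inv _ := rfl

open Classical in
/-- the weight of the network -/
noncomputable def bigW {n M : ℕ} (supp : ι → Finset (Site N)) (z : Fin d) (root : ι → Site N)
    (g : ι → (Site N → Fin d) → (Site N → Fin d) → ℂ) (cl : ℕ → Site N → Cl) (lv sz : ι → ℕ)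
    (st : ι → Cl → Site N) (P : Site N → (Fin (K + 1) → ℕ) → Prop)
    (lam : Fin M → Fin (n + 1) → ℂ) (zz : Fin M → ℂ) (rt : Cl → Site N) (v : Site N) (a b : Fin d)
    (l m c : YY N d ι p K n M) : ℂ :=
  (if c.2.1 0 = a ∧ c.2.1 (Fin.last p) = b then 1 else 0) *
  ((if ∑ j, szL sz (c.1 j) ≤ n then 1 else 0) *
  ((∏ j : Fin p, chkW supp z root g v (c.2.1 j.castSucc) (c.2.1 j.succ) (l.1 j) (m.1 j) (c.1 j)) *
  (if consP cl K v l.2.2 m.2.2 c.2.2 then
    cellF cl K P lam zz rt v (fun k => ∑ j, pay1 cl lv sz st v k (c.1 j)) c.2.2 else 0)))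

open Classical in
/-- **the network of the configurations with bounded contents** -/
theorem opNet_cut (supp : ι → Finset (Site N)) (hconn : ∀ i, LatConn (supp i))
    (g : ι → (Site N → Fin d) → (Site N → Fin d) → ℂ)
    (hg : ∀ i s s' t t', (∀ u ∈ supp i, s u = t u ∧ s' u = t' u) → g i s s' = g i t t')
    (lv sz : ι → ℕ) (hlv : ∀ i, lv i ≤ K) (cl : ℕ → Site N → Cl)
    (hinj : ∀ j j' u u', cl j u = cl j' u' → j = j')
    (hcc : ∀ k (P : Site N → Prop), (∀ u, cl k u = cl k (u - (1, 0)) → (P u ↔ P (u - (1, 0)))) →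
      (∀ u, cl k u = cl k (u - (0, 1)) → (P u ↔ P (u - (0, 1)))) →
      ∀ u u', cl k u = cl k u' → (P u ↔ P u')) {ar n κ : ℕ}
    (har : ∀ (k : Fin (K + 1)) v, (Finset.univ.filter (fun u => cl k u = cl k v)).card ≤ ar)
    (P : Site N → (Fin (K + 1) → ℕ) → Prop) (hP : ∀ v β, P v β → ∑ k, β k ≤ n) (z : Fin d)
    (hκ : 1 ≤ κ)
    (hcount : ∀ v, ∀ k ≤ n, ((A0 supp z v).filter (fun l => szL sz l = k)).card ≤ κ ^ k)
    (O : Matrix (Site N → Fin d) (Site N → Fin d) ℂ)
    (hO : ∀ s s', O s s' = ∑ D : Fin p → Finset ι,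
      if ∀ v, P v (fun k => ct supp cl lv sz D (cl k v)) then
        ∑ t : Fin (p + 1) → (Site N → Fin d), (if t 0 = s ∧ t (Fin.last p) = s' then
          ∏ j : Fin p, famG supp g (t j.castSucc) (t j.succ) (D j) else 0) else 0) :
    OpNet ((2 ^ p * (2 * κ) ^ n) * (d ^ (p + 1) * ((n + 1) * (ar * n + 1)) ^ (K + 1))) O := by
  obtain ⟨root, hroot⟩ : ∃ root : ι → Site N, ∀ i, root i ∈ supp i := by
    choose root hroot using fun i => (hconn i).1
    exact ⟨root, hroot⟩
  obtain ⟨st, hst⟩ : ∃ st : ι → Cl → Site N, ∀ i c, (∃ u ∈ supp i, cl (lv i) u = c) →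
      st i c ∈ supp i ∧ cl (lv i) (st i c) = c := by
    refine ⟨fun i c => if h : ∃ u ∈ supp i, cl (lv i) u = c then h.choose else root i, ?_⟩
    intro i c h
    beta_reduce
    rw [dif_pos h]
    exact h.choose_spec
  obtain ⟨rt, hrt⟩ : ∃ rt : Cl → Site N, ∀ c ∈ Qt cl K, ∃ k : Fin (K + 1), cl k (rt c) = c := by
    refine ⟨fun c => if h : ∃ x : Fin (K + 1) × Site N, cl x.1 x.2 = c then h.choose.2 else 0, ?_⟩
    intro c hc
    have h : ∃ x : Fin (K + 1) × Site N, cl x.1 x.2 = c := by
      obtain ⟨x, -, hx⟩ := Finset.mem_image.1 hc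
      exact ⟨x, hx⟩
    beta_reduce
    rw [dif_pos h]
    exact ⟨h.choose.1, h.choose_spec⟩
  obtain ⟨M, hM⟩ : ∃ M, M = ar * n + 1 := ⟨_, rfl⟩
  obtain ⟨lam, zz, hlam⟩ := interp M n
  rw [← hM]
  have hP' : ∀ v β, P v β → ∀ k, β k ≤ n := fun v β h k =>
    (Finset.single_le_sum (fun _ _ => Nat.zero_le _) (Finset.mem_univ k)).trans (hP v β h)
  refine opNet_of_labels (Y := YY N d ι p K n M)
    (fun v => ((Fintype.piFinset (fun _ : Fin p => A0 supp z v)).filter
      (fun y => ∑ j, szL sz (y j) ≤ n)) ×ˢ (Finset.univ ×ˢ Finset.univ)) _ ?_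
    (bigW supp z root g cl lv sz st P lam zz rt) ?_ O ?_
  · intro v
    rw [Finset.card_product, Finset.card_product, Finset.card_univ, Finset.card_univ]
    simp only [Fintype.card_fun, Fintype.card_prod, Fintype.card_fin]
    exact Nat.mul_le_mul_right _
      (Hhelper82.AM.card_tuples _ _ _ _ _ hκ (hcount v))
  · intro v a b l m c hc
    unfold bigW
    by_cases h1 : ∃ j, c.1 j ∉ A0 supp z v
    · obtain ⟨j, hj⟩ := h1
      rw [Finset.prod_eq_zero (Finset.mem_univ j) (chkW_zero hj), zero_mul, mul_zero, mul_zero]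
    · push Not at h1
      have h2 : ¬ ∑ j, szL sz (c.1 j) ≤ n := by
        intro h3
        apply hc
        simp only [Finset.mem_product, Finset.mem_filter, Fintype.mem_piFinset, Finset.mem_univ,
          and_true]
        exact ⟨h1, h3⟩
      rw [if_neg h2, zero_mul, mul_zero]
  · intro s s'
    obtain ⟨Φ, hΦ⟩ : ∃ Φ : (Fin p → Site N → FLab N d ι) → ℂ, Φ = fun Y1 =>
      if (∀ v, ∑ j, szL sz (Y1 j v) ≤ n) ∧ ∀ v, P v (fun k => bC cl K
        (fun v k => ∑ j, pay1 cl lv sz st v k (Y1 j v)) (cl k v)) then 1 else 0 := ⟨_, rfl⟩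
    obtain ⟨Ch, hCh⟩ : ∃ Ch : (Fin p → Site N → FLab N d ι) → (Fin (p + 1) → Site N → Fin d) → ℂ,
      Ch = fun Y1 t => ∏ j : Fin p, ∏ v, chkW supp z root g v (t j.castSucc v) (t j.succ v)
        (Y1 j (v - (1, 0))) (Y1 j (v - (0, 1))) (Y1 j v) := ⟨_, rfl⟩
    obtain ⟨E, hE⟩ : ∃ E : (Fin (p + 1) → Site N → Fin d) → ℂ, E = fun t =>
      if t 0 = s ∧ t (Fin.last p) = s' then 1 else 0 := ⟨_, rfl⟩
    obtain ⟨B, hB⟩ : ∃ B : (Fin p → Site N → FLab N d ι) → ℂ, B = fun Y1 =>
      if ∀ v, ∑ j, szL sz (Y1 j v) ≤ n then 1 else 0 := ⟨_, rfl⟩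
    -- the sum over the labels
    have hsum : ∑ y : Site N → YY N d ι p K n M, ∏ v, bigW supp z root g cl lv sz st P lam zz rt v
        (s v) (s' v) (y (v - (1, 0))) (y (v - (0, 1))) (y v) =
        ∑ x : (Fin p → Site N → FLab N d ι) × (Fin (p + 1) → Site N → Fin d) ×
            (Site N → Fin (K + 1) → Fin (n + 1) × Fin M),
          E x.2.1 * (B x.1 * (Ch x.1 x.2.1 * ∏ v, (if consP cl K v (x.2.2 (v - (1, 0))) (x.2.2 (v - (0, 1))) (x.2.2 v)
            then cellF cl K P lam zz rt v (fun k => ∑ j, pay1 cl lv sz st v k (x.1 j v)) (x.2.2 v)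
            else 0))) := by
      refine Fintype.sum_equiv (eqY (Site N) (FLab N d ι) (Fin d)
        (Fin (K + 1) → Fin (n + 1) × Fin M) p (p + 1)) _ _ ?_
      intro y
      unfold bigW eqY
      rw [hCh, hE, hB, Finset.prod_mul_distrib, Finset.prod_mul_distrib, Finset.prod_mul_distrib]
      congr 1
      · rw [Finset.prod_ite_zero]
        simp only [Finset.mem_univ, true_implies, Finset.prod_const_one, Equiv.coe_fn_mk]
        have e : (∀ v, (y v).2.1 0 = s v ∧ (y v).2.1 (Fin.last p) = s' v) ↔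
            ((fun v => (y v).2.1 0) = s ∧ (fun v => (y v).2.1 (Fin.last p)) = s') := by
          constructor
          · intro h
            exact ⟨funext fun v => (h v).1, funext fun v => (h v).2⟩
          · rintro ⟨h1, h2⟩ v
            exact ⟨congrFun h1 v, congrFun h2 v⟩
        by_cases h : ∀ v, (y v).2.1 0 = s v ∧ (y v).2.1 (Fin.last p) = s' v
        · rw [if_pos h, if_pos (e.1 h)]
        · rw [if_neg h, if_neg (fun h' => h (e.2 h'))]
      · congr 1
        · rw [Finset.prod_ite_zero]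
          simp only [Finset.mem_univ, true_implies, Finset.prod_const_one, Equiv.coe_fn_mk]
        · congr 1
          exact Finset.prod_comm
    rw [hsum, Fintype.sum_prod_type]
    have hin : ∀ (Y1 : Fin p → Site N → FLab N d ι), ∑ x : (Fin (p + 1) → Site N → Fin d) ×
            (Site N → Fin (K + 1) → Fin (n + 1) × Fin M),
          E x.1 * (B Y1 * (Ch Y1 x.1 * ∏ v, (if consP cl K v (x.2 (v - (1, 0))) (x.2 (v - (0, 1))) (x.2 v)
            then cellF cl K P lam zz rt v (fun k => ∑ j, pay1 cl lv sz st v k (Y1 j v)) (x.2 v)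
            else 0))) =
        ∑ t : Fin (p + 1) → Site N → Fin d, E t * (Ch Y1 t * Φ Y1) := by
      intro Y1
      rw [Fintype.sum_prod_type]
      refine Finset.sum_congr rfl (fun t _ => ?_)
      dsimp only
      rw [← Finset.mul_sum]
      congr 1
      rw [← Finset.mul_sum, ← Finset.mul_sum, hB]
      beta_reduce
      by_cases h1 : ∀ v, ∑ j, szL sz (Y1 j v) ≤ n
      · rw [if_pos h1, one_mul]
        congr 1
        have h2 : ∀ v (k : Fin (K + 1)), ∑ j, pay1 cl lv sz st v k (Y1 j v) ≤ n := fun v k =>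
          (Finset.sum_le_sum (fun j _ => pay1_le cl lv sz st v k (Y1 j v))).trans (h1 v)
        have h3 := cell_test hinj hcc P hP' hlam hrt
          (fun v k => ∑ j, pay1 cl lv sz st v k (Y1 j v))
          (fun k v => by
            rw [hM]
            exact Nat.lt_succ_of_le (bC_le hinj har _ h2 k v))
        rw [h3, hΦ]
        beta_reduce
        by_cases h4 : ∀ v, P v (fun k => bC cl K
            (fun v k => ∑ j, pay1 cl lv sz st v k (Y1 j v)) (cl k v))
        · rw [if_pos h4, if_pos ⟨h1, h4⟩]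
        · rw [if_neg h4, if_neg (fun h5 => h4 h5.2)]
      · rw [if_neg h1, zero_mul, hΦ]
        beta_reduce
        rw [if_neg (fun h5 => h1 h5.1), mul_zero]
    rw [Finset.sum_congr rfl (fun Y1 _ => hin Y1), Finset.sum_comm]
    have hsl : ∀ t : Fin (p + 1) → Site N → Fin d, ∑ Y1 : Fin p → Site N → FLab N d ι,
        E t * (Ch Y1 t * Φ Y1) =
        ∑ D : Fin p → Finset ι, if ∀ v, P v (fun k => ct supp cl lv sz D (cl k v)) then
          (if t 0 = s ∧ t (Fin.last p) = s' then
            ∏ j : Fin p, famG supp g (t j.castSucc) (t j.succ) (D j) else 0) else 0 := by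
      intro t
      rw [← Finset.mul_sum, hCh, hE]
      have h1 := slices_sum p
        (fun (j : Fin p) (y : Site N → FLab N d ι) => ∏ v, chkW supp z root g v (t j.castSucc v)
          (t j.succ v) (y (v - (1, 0))) (y (v - (0, 1))) (y v))
        (fun (j : Fin p) (D : Finset ι) => famG supp g (t j.castSucc) (t j.succ) D)
        (fun (j : Fin p) (D : Finset ι) => famLab supp z (t j.castSucc) (t j.succ) D)
        (fun j Ψ => fam_sum supp hconn g hg z root hroot (t j.castSucc) (t j.succ) Ψ) Φ
      beta_reduce at h1 ⊢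
      rw [h1, Finset.mul_sum]
      refine Finset.sum_congr rfl (fun D _ => ?_)
      by_cases h2 : ∀ j, DisjF supp (D j)
      · have h3 : Φ (fun j => famLab supp z (t j.castSucc) (t j.succ) (D j)) =
            if ∀ v, P v (fun k => ct supp cl lv sz D (cl k v)) then 1 else 0 := by
          have h4 : ∀ (k : Fin (K + 1)) v, bC cl K (fun v k => ∑ j, pay1 cl lv sz st v k
              (famLab supp z (t j.castSucc) (t j.succ) (D j) v)) (cl k v) =
              ct supp cl lv sz D (cl k v) := by
            intro k v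
            rw [bC_level hinj, Finset.sum_comm]
            unfold ct
            refine Finset.sum_congr rfl (fun j _ => ?_)
            rw [pay_fam hst (h2 j) k v hinj]
          rw [hΦ]
          beta_reduce
          simp only [h4]
          by_cases h5 : ∀ v, P v (fun k => ct supp cl lv sz D (cl k v))
          · rw [if_pos h5, if_pos]
            refine ⟨fun v => ?_, h5⟩
            exact (size_fam hlv (t := fun j : Fin p => t j.castSucc)
              (t' := fun j : Fin p => t j.succ) h2 v).trans (hP _ _ (h5 v))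
          · rw [if_neg h5, if_neg (fun h6 => h5 h6.2)]
        rw [h3]
        by_cases h5 : ∀ v, P v (fun k => ct supp cl lv sz D (cl k v))
        · rw [if_pos h5, if_pos h5, mul_one]
          by_cases h6 : t 0 = s ∧ t (Fin.last p) = s'
          · rw [if_pos h6, if_pos h6, one_mul]
          · rw [if_neg h6, if_neg h6, zero_mul]
        · rw [if_neg h5, if_neg h5, mul_zero, mul_zero]
      · have h3 : ∏ j : Fin p, famG supp g (t j.castSucc) (t j.succ) (D j) = 0 := by
          push Not at h2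
          obtain ⟨j, hj⟩ := h2
          refine Finset.prod_eq_zero (Finset.mem_univ j) ?_
          unfold famG
          rw [if_neg (fun h4 => hj h4.1)]
        rw [h3, zero_mul, mul_zero]
        simp
    rw [Finset.sum_congr rfl (fun t _ => hsl t), Finset.sum_comm, hO]
    refine Finset.sum_congr rfl (fun D _ => ?_)
    by_cases h5 : ∀ v, P v (fun k => ct supp cl lv sz D (cl k v))
    · rw [if_pos h5]
      refine Finset.sum_congr rfl (fun t _ => ?_)
      rw [if_pos h5]
    · rw [if_neg h5]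
      symm
      apply Finset.sum_eq_zero
      intro t _
      rw [if_neg h5]

end asm

end Pool.Agent.Hhelper68.AM
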