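import Pool.Agent.Hhelper17.AM.Defs

/-!
The cells of the torus are connected.
-/

set_option autoImplicit false
set_option linter.unusedSectionVars false

namespace Pool.Agent.Hhelper68.AM

open Pool.Agent.Hhelper96.PEPS Pool.Agent.Hhelper17.AM

/-- subtraction of one -/
theorem zmod_sub_one {N : ℕ} [NeZero N] {x : ZMod N} (hx : 0 < x.val) :
    (x - 1).val = x.val - 1 := by
  have h1 : x = ((x.val : ℕ) : ZMod N) := (ZMod.natCast_zmod_val x).symm
  have h2 : x - 1 = ((x.val - 1 : ℕ) : ZMod N) := by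
    rw [Nat.cast_sub (by omega), Nat.cast_one, ZMod.natCast_zmod_val]
  rw [h2, ZMod.val_natCast_of_lt]
  have := ZMod.val_lt x
  omega

theorem cellT_conn {N r : ℕ} [NeZero N] (hr : 1 ≤ r) (k : ℕ) (P : Site N → Prop)
    (h1 : ∀ u, cellT N r k u = cellT N r k (u - (1, 0)) → (P u ↔ P (u - (1, 0))))
    (h2 : ∀ u, cellT N r k u = cellT N r k (u - (0, 1)) → (P u ↔ P (u - (0, 1)))) :
    ∀ u u', cellT N r k u = cellT N r k u' → (P u ↔ P u') := by
  obtain ⟨A, hA⟩ : ∃ A, A = 4 * r * 2 ^ k := ⟨_, rfl⟩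
  have hA0 : 0 < A := by rw [hA]; positivity
  -- a decreasing step in a cell
  have hdiv : ∀ x : ℕ, ¬ A ∣ x → 0 < x ∧ (x - 1) / A = x / A := by
    intro x hx
    have hx0 : 0 < x := by
      rcases Nat.eq_zero_or_pos x with h | h
      · exact absurd (h ▸ dvd_zero A) hx
      · exact h
    refine ⟨hx0, ?_⟩
    obtain ⟨y, rfl⟩ : ∃ y, x = y + 1 := ⟨x - 1, by omega⟩
    rw [Nat.add_sub_cancel, Nat.succ_div_of_not_dvd hx]
  -- the corner
  have hcor : ∀ n : ℕ, ∀ u : Site N, u.1.val + u.2.val = n →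
      ∃ w : Site N, A ∣ w.1.val ∧ A ∣ w.2.val ∧ cellT N r k w = cellT N r k u ∧
        (P u ↔ P w) := by
    intro n
    induction n using Nat.strong_induction_on with
    | _ n ih =>
      intro u hu
      by_cases hx : A ∣ u.1.val
      · by_cases hy : A ∣ u.2.val
        · exact ⟨u, hx, hy, rfl, Iff.rfl⟩
        · obtain ⟨hy0, hy1⟩ := hdiv _ hy
          have e1 : (u - (0, 1)).1 = u.1 := by simp
          have e2 : (u - (0, 1)).2.val = u.2.val - 1 := zmod_sub_one hy0
          have e3 : cellT N r k (u - (0, 1)) = cellT N r k u := by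
            unfold cellT
            rw [e1, e2, ← hA, hy1]
          obtain ⟨w, hw1, hw2, hw3, hw4⟩ := ih (n - 1) (by omega) (u - (0, 1)) (by
            rw [e1, e2]
            omega)
          exact ⟨w, hw1, hw2, hw3.trans e3, (h2 u e3.symm).trans hw4⟩
      · obtain ⟨hx0, hx1⟩ := hdiv _ hx
        have e1 : (u - (1, 0)).2 = u.2 := by simp
        have e2 : (u - (1, 0)).1.val = u.1.val - 1 := zmod_sub_one hx0
        have e3 : cellT N r k (u - (1, 0)) = cellT N r k u := by
          unfold cellT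
          rw [e1, e2, ← hA, hx1]
        obtain ⟨w, hw1, hw2, hw3, hw4⟩ := ih (n - 1) (by omega) (u - (1, 0)) (by
          rw [e1, e2]
          omega)
        exact ⟨w, hw1, hw2, hw3.trans e3, (h1 u e3.symm).trans hw4⟩
  intro u u' huu
  obtain ⟨w, hw1, hw2, hw3, hw4⟩ := hcor _ u rfl
  obtain ⟨w', hw1', hw2', hw3', hw4'⟩ := hcor _ u' rfl
  have e : w = w' := by
    have h3 : cellT N r k w = cellT N r k w' := hw3.trans (huu.trans hw3'.symm)
    unfold cellT at h3
    rw [← hA] at h3
    simp only [Prod.mk.injEq, true_and] at h3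
    refine Prod.ext ?_ ?_
    · apply ZMod.val_injective N
      rw [← Nat.div_mul_cancel hw1, ← Nat.div_mul_cancel hw1', h3.1]
    · apply ZMod.val_injective N
      rw [← Nat.div_mul_cancel hw2, ← Nat.div_mul_cancel hw2', h3.2]
  rw [hw4, hw4', e]

end Pool.Agent.Hhelper68.AM
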