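import Pool.Agent.Hhelper68.AM.Labels
import Pool.Agent.Hhelper17.AM.Final0

/-!
The operator of the allowed configurations on the torus is an operator network.
-/

set_option autoImplicit false
set_option linter.unusedSectionVars false
set_option synthInstance.maxSize 2048

open scoped BigOperators
open Matrix

namespace Pool.Agent.Hhelper68.AM

open Pool.Agent.Hhelper96.PEPS Pool.Agent.Hhelper68.CS Pool.Agent.Hhelper17.AM

/-- the local test of the contents -/
def Ploc (K : ℕ) (th : ℕ → ℕ) (β : Fin (K + 1) → ℕ) : Prop :=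
  ∀ k ≤ K, (∑ j : Fin (K + 1), if k ≤ (j : ℕ) then β j else 0) ≤ th k

theorem allow_iff {V Cl : Type} [Fintype V] [DecidableEq V] [DecidableEq Cl] (K : ℕ)
    (cl : ℕ → V → Cl) (th : ℕ → ℕ) (b : Cl → ℕ) :
    Allow K cl th b ↔ ∀ v, Ploc K th (fun k : Fin (K + 1) => b (cl k v)) := by
  unfold Allow Ploc
  refine forall_congr' fun v => forall_congr' fun k => forall_congr' fun _ => ?_
  have e : ∑ j ∈ Finset.Icc k K, b (cl j v) =
      ∑ j : Fin (K + 1), if k ≤ (j : ℕ) then b (cl j v) else 0 := by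
    rw [Fin.sum_univ_eq_sum_range (fun j => if k ≤ j then b (cl j v) else 0) (K + 1),
      ← Finset.sum_filter]
    refine Finset.sum_congr ?_ (fun _ _ => rfl)
    ext j
    simp only [Finset.mem_Icc, Finset.mem_filter, Finset.mem_range]
    omega
  rw [e]

theorem Ploc.sum_le {K : ℕ} {th : ℕ → ℕ} {β : Fin (K + 1) → ℕ} (h : Ploc K th β) :
    ∑ k, β k ≤ th 0 := by
  have h1 := h 0 (Nat.zero_le _)
  simpa using h1

/-- **the network of the allowed configurations** -/
theorem opNet_cutM {N d r : ℕ} [NeZero N] (hd : 1 ≤ d) (hr : 1 ≤ r) {R : Finset (ℤ × ℤ)} {a b : ℤ}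
    (hRB : R ⊆ box a b r) (K₀ : Matrix (R → Fin d) (R → Fin d) ℂ) (t : ℝ) (m p : ℕ) (th : ℕ → ℕ)
    (hcc : ∀ k (P : Site N → Prop),
      (∀ u, cellT N r k u = cellT N r k (u - (1, 0)) → (P u ↔ P (u - (1, 0)))) →
      (∀ u, cellT N r k u = cellT N r k (u - (0, 1)) → (P u ↔ P (u - (0, 1)))) →
      ∀ u u', cellT N r k u = cellT N r k u' → (P u ↔ P u'))
    (har : ∀ (k : ℕ) c, (Finset.univ.filter (fun v : Site N => cellT N r k v = c)).card ≤
      (4 * r * 2 ^ k) ^ 2) :
    OpNet ((2 ^ p * (2 * kap1 d r) ^ (th 0)) * (d ^ (p + 1) *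
      ((th 0 + 1) * ((4 * r * 2 ^ (Nat.log 2 m)) ^ 2 * th 0 + 1)) ^ (Nat.log 2 m + 1)))
      (cutM (nb N (box a b r) (box a b r)) (spW N (box a b r)) (cellT N r) (Nat.log 2 m) th
        (fun v => localTerm N R K₀ v) t m p) := by
  classical
  have hB : (box a b r).Nonempty := by
    rw [← Finset.card_pos, card_box]
    positivity
  have hact : ∀ v, ActOn (spW N (box a b r) v) (localTerm N R K₀ v) := act_localTerm hRB K₀
  have hconn : ∀ C, ConnF (nb N (box a b r) (box a b r)) C →
      LatConn (suppC (spW N (box a b r)) C) := fun C hC => latConn_supp hr hC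
  refine opNet_cut (ι := Clu (nb N (box a b r) (box a b r)) m)
    (fun i => suppC (spW N (box a b r)) i.1) (fun i => hconn i.1 i.2.1)
    (fun i s s' => gC (spW N (box a b r)) (fun v => localTerm N R K₀ v) t i.1 s s')
    (fun i s s' r r' hs => gC_congr hact t i.1 hs)
    (fun i => Nat.log 2 i.1.card) (fun i => i.1.card)
    (fun i => Nat.log_mono_right i.2.2) (cellT N r) ?_ hcc
    (ar := (4 * r * 2 ^ (Nat.log 2 m)) ^ 2) (n := th 0) (κ := kap1 d r) ?_
    (fun _ => Ploc (Nat.log 2 m) th) (fun _ _ h => h.sum_le) ⟨0, hd⟩ (kap1_pos hd) ?_ _ ?_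
  · intro j j' u u' e
    exact congrArg Prod.fst e
  · intro k v
    refine (har k _).trans ?_
    have hk : (k : ℕ) ≤ Nat.log 2 m := Nat.lt_succ_iff.1 k.2
    gcongr
    norm_num
  · intro v k _
    rcases Nat.eq_zero_or_pos k with rfl | hk
    · rw [pow_zero]
      refine count_labels_zero _ v ?_
      intro i
      exact Finset.card_pos.2 i.2.1.1
    · refine (count_labels _ v hk (cnt := r ^ 2 * k * 2 ^ (r ^ 4 * k)) (c := r ^ 2 * k) ?_ ?_).trans
        (kap1_pow hk)
      · refine le_trans ?_ (card_clusters a b r k v)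
        rw [← Finset.card_map (Function.Embedding.subtype _)]
        refine Finset.card_le_card ?_
        intro C hC
        simp only [Finset.mem_map, Finset.mem_filter, Finset.mem_univ, true_and,
          Function.Embedding.subtype_apply] at hC ⊢
        obtain ⟨x, ⟨hx1, hx2⟩, rfl⟩ := hC
        exact ⟨x.2.1, hx2.le, hx1⟩
      · intro i hi
        exact card_supp_le' a b r hi.le
  · intro s s'
    rw [cutM_apply (nb_self hB) (nb_iff (box a b r)) hact]
    refine Finset.sum_congr rfl (fun D _ => ?_)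
    by_cases hA : Allow (Nat.log 2 m) (cellT N r) th (ct (fun i : Clu (nb N (box a b r)
        (box a b r)) m => suppC (spW N (box a b r)) i.1) (cellT N r)
        (fun i => Nat.log 2 i.1.card) (fun i => i.1.card) D)
    · rw [if_pos hA, if_pos ((allow_iff _ _ _ _).1 hA)]
    · rw [if_neg hA, if_neg (fun h1 => hA ((allow_iff _ _ _ _).2 h1))]

end Pool.Agent.Hhelper68.AM
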