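import Pool.Agent.Hhelper68.AM.CutNetP
import Pool.Agent.Hhelper68.AM.CellConn
import Pool.Agent.Hhelper36.AM.EtaT
import Pool.Agent.Hhelper87.AM.Label

/-!
The network statement `CutNet`, and the amortized interface `PowNet`.
-/

set_option autoImplicit false
set_option linter.unusedSectionVars false

open scoped BigOperators Matrix.Norms.L2Operator
open Matrix

namespace Pool.Agent.Hhelper68.AM

open Pool.Agent.Hhelper96.PEPS Pool.Agent.Hhelper68.CS Pool.Agent.Hhelper17.AM

/-- **the network statement** -/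
theorem cutNet {d r : ℕ} (hd : 1 ≤ d) (hr : 1 ≤ r) : CutNet d r := by
  intro c₁
  obtain ⟨κ, hκ⟩ := Pool.Agent.Hhelper87.AM.label_num d r (kap1 d r) c₁
  refine ⟨κ, ?_⟩
  intro N m j q _ hm hj hq th _ hth R a b hR K₀ t
  have hRB : R ⊆ box a b r := by
    intro p hp
    have := hR p hp
    exact mem_box.2 ⟨⟨this.1, this.2.1⟩, this.2.2.1, this.2.2.2⟩
  have h1 := opNet_cutM (N := N) hd hr hRB K₀ t m (2 ^ (j + 1)) th
    (fun k P => cellT_conn hr k P) (fun k c => Pool.Agent.Hhelper36.AM.cellT_card hr k c)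
  have h2 := hκ m (2 ^ (j + 1)) q (Nat.log 2 m) (th 0) hm hq (by rw [pow_succ]; omega) rfl hth
  rw [cutG_eq_cutM]
  refine h1.mono (le_trans (le_of_eq ?_) h2)
  ring

/-- **the amortized interface holds** -/
theorem powNet {d r : ℕ} (hd : 1 ≤ d) (hr : 1 ≤ r) : ∃ κ, PowNet d r κ :=
  powNet_of d r hd hr (Pool.Agent.Hhelper36.AM.etaLe hr) (cutNet hd hr)

end Pool.Agent.Hhelper68.AM
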