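import Pool.Agent.Hhelper68.CS.FamNet

/-!
The label sum of one slice, with an extra factor; the sum over several slices; products of matrices
as sums over paths.
-/

set_option autoImplicit false
set_option linter.unusedSectionVars false

open scoped BigOperators ComplexOrder
open Matrix

namespace Pool.Agent.Hhelper68.AM

open Pool.Agent.Hhelper96.PEPS

section fam

variable {N d : ℕ} [NeZero N] {ι : Type} [Fintype ι] [DecidableEq ι]

/-- the families of clusters with disjoint supports -/
def DisjF (supp : ι → Finset (Site N)) (D : Finset ι) : Prop :=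
  ∀ i ∈ D, ∀ j ∈ D, i ≠ j → Disjoint (supp i) (supp j)

open Classical in
/-- the factor of a family -/
noncomputable def famG (supp : ι → Finset (Site N))
    (g : ι → (Site N → Fin d) → (Site N → Fin d) → ℂ) (s s' : Site N → Fin d) (D : Finset ι) : ℂ :=
  if DisjF supp D ∧ ∀ u, (∀ i ∈ D, u ∉ supp i) → s u = s' u then ∏ i ∈ D, g i s s' else 0

open Classical in
/-- the weight of a label configuration of one slice -/
noncomputable def chkW (supp : ι → Finset (Site N)) (z : Fin d) (root : ι → Site N)
    (g : ι → (Site N → Fin d) → (Site N → Fin d) → ℂ) (v : Site N) (a b : Fin d)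
    (l m c : FLab N d ι) : ℂ :=
  if chk supp z v a b l m c then rtf root g v c else 0

open Classical in
/-- **the label sum of one slice, with an extra factor** -/
theorem fam_sum (supp : ι → Finset (Site N)) (hconn : ∀ i, LatConn (supp i))
    (g : ι → (Site N → Fin d) → (Site N → Fin d) → ℂ)
    (hg : ∀ i s s' t t', (∀ u ∈ supp i, s u = t u ∧ s' u = t' u) → g i s s' = g i t t')
    (z : Fin d) (root : ι → Site N) (hroot : ∀ i, root i ∈ supp i) (s s' : Site N → Fin d)
    (Φ : (Site N → FLab N d ι) → ℂ) :
    ∑ y : Site N → FLab N d ι, (∏ v, chkW supp z root g v (s v) (s' v) (y (v - (1, 0)))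
        (y (v - (0, 1))) (y v)) * Φ y =
      ∑ D : Finset ι, famG supp g s s' D * Φ (famLab supp z s s' D) := by
  have hL : ∑ D : Finset ι, famG supp g s s' D * Φ (famLab supp z s s' D) =
      ∑ D ∈ (Finset.univ : Finset (Finset ι)).filter
        (fun D => DisjF supp D ∧ ∀ u, (∀ i ∈ D, u ∉ supp i) → s u = s' u),
        (∏ i ∈ D, g i s s') * Φ (famLab supp z s s' D) := by
    rw [Finset.sum_filter]
    refine Finset.sum_congr rfl (fun D _ => ?_)
    unfold famG
    by_cases h : DisjF supp D ∧ ∀ u, (∀ i ∈ D, u ∉ supp i) → s u = s' u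
    · rw [if_pos h, if_pos h]
    · rw [if_neg h, if_neg h, zero_mul]
  have hR : ∑ y : Site N → FLab N d ι, (∏ v, chkW supp z root g v (s v) (s' v) (y (v - (1, 0)))
        (y (v - (0, 1))) (y v)) * Φ y =
      ∑ y ∈ Finset.univ.filter (fun y : Site N → FLab N d ι => ∀ v, chk supp z v (s v) (s' v)
        (y (v - (1, 0))) (y (v - (0, 1))) (y v)), (∏ v, rtf root g v (y v)) * Φ y := by
    rw [Finset.sum_filter]
    refine Finset.sum_congr rfl (fun y _ => ?_)
    unfold chkW
    by_cases h : ∀ v, chk supp z v (s v) (s' v) (y (v - (1, 0))) (y (v - (0, 1))) (y v)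
    · rw [if_pos h]
      congr 1
      exact Finset.prod_congr rfl (fun v _ => if_pos (h v))
    · rw [if_neg h]
      push Not at h
      obtain ⟨v, hv⟩ := h
      rw [Finset.prod_eq_zero (Finset.mem_univ v) (if_neg hv), zero_mul]
  rw [hR, hL]
  symm
  refine Finset.sum_bij' (fun D _ => famLab supp z s s' D)
    (fun y _ => Finset.univ.filter (fun i => ∃ v x, y v = some x ∧ x.1 = i)) ?_ ?_ ?_ ?_ ?_
  · -- the labels of a family are consistent
    intro D hD
    simp only [Finset.mem_filter, Finset.mem_univ, true_and] at hD ⊢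
    obtain ⟨hD, hoff⟩ := hD
    intro v
    refine ⟨?_, ?_, ?_, ?_, ?_, ?_⟩
    · intro h
      rcases famLab_cases (z := z) (s := s) (s' := s') hD v with ⟨i, hi, hv, h1⟩ | ⟨h1, _⟩
      · rw [h1] at h
        exact absurd h (by simp)
      · exact hoff v h1
    · intro x hx
      obtain ⟨h1, h2, h3⟩ := famLab_some hD hx
      refine ⟨h2, ?_, ?_, ?_⟩
      · intro u hu
        rw [h3]
        simp only [rst]
        rw [if_neg hu, if_neg hu]
        exact ⟨rfl, rfl⟩
      · rw [h3]
        simp only [rst]
        rw [if_pos h2]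
      · rw [h3]
        simp only [rst]
        rw [if_pos h2]
    · intro x hx hv
      obtain ⟨h1, h2, h3⟩ := famLab_some hD hx
      rw [famLab_of_mem hD h1 hv, ← h3]
    · intro x hx hv
      obtain ⟨h1, h2, h3⟩ := famLab_some hD hx
      rw [famLab_of_mem hD h1 hv, ← h3]
    · intro x hx hv
      obtain ⟨h1, h2, h3⟩ := famLab_some hD hx
      rw [famLab_of_mem hD h1 hv, ← h3]
    · intro x hx hv
      obtain ⟨h1, h2, h3⟩ := famLab_some hD hx
      rw [famLab_of_mem hD h1 hv, ← h3]
  · -- the clusters of a consistent label configuration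
    intro y hy
    simp only [Finset.mem_filter, Finset.mem_univ, true_and] at hy ⊢
    refine ⟨?_, ?_⟩
    · unfold DisjF
      simp only [Finset.mem_filter, Finset.mem_univ, true_and]
      rintro i ⟨v, x, hx, rfl⟩ j ⟨v', x', hx', rfl⟩ hne
      rw [Finset.disjoint_left]
      intro u hu hu'
      have h1 := chk_const hconn hy hx u hu
      rw [chk_const hconn hy hx' u hu', Option.some.injEq] at h1
      exact hne (by rw [h1])
    · intro u hu
      apply (hy u).1
      cases h : y u with
      | none => rfl
      | some x => exact absurd ((hy u).2.1 x h).1 (hu x.1 ⟨u, x, h, rfl⟩)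
  · intro D hD
    simp only [Finset.mem_filter, Finset.mem_univ, true_and] at hD
    obtain ⟨hD, -⟩ := hD
    ext i
    simp only [Finset.mem_filter, Finset.mem_univ, true_and]
    constructor
    · rintro ⟨v, x, hx, rfl⟩
      exact (famLab_some hD hx).1
    · intro hi
      exact ⟨root i, _, famLab_of_mem hD hi (hroot i), rfl⟩
  · intro y hy
    simp only [Finset.mem_filter, Finset.mem_univ, true_and] at hy
    have hdisj : ∀ i ∈ Finset.univ.filter (fun i => ∃ v x, y v = some x ∧ x.1 = i),
        ∀ j ∈ Finset.univ.filter (fun i => ∃ v x, y v = some x ∧ x.1 = i), i ≠ j →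
        Disjoint (supp i) (supp j) := by
      simp only [Finset.mem_filter, Finset.mem_univ, true_and]
      rintro i ⟨v, x, hx, rfl⟩ j ⟨v', x', hx', rfl⟩ hne
      rw [Finset.disjoint_left]
      intro u hu hu'
      have h1 := chk_const hconn hy hx u hu
      rw [chk_const hconn hy hx' u hu', Option.some.injEq] at h1
      exact hne (by rw [h1])
    funext v
    cases h : y v with
    | none =>
      apply famLab_of_notMem
      intro i hi hv
      simp only [Finset.mem_filter, Finset.mem_univ, true_and] at hi
      obtain ⟨v', x, hx, rfl⟩ := hi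
      rw [chk_const hconn hy hx v hv] at h
      exact absurd h (by simp)
    | some x =>
      have h1 : x.1 ∈ Finset.univ.filter (fun i => ∃ v x, y v = some x ∧ x.1 = i) := by
        simp only [Finset.mem_filter, Finset.mem_univ, true_and]
        exact ⟨v, x, h, rfl⟩
      have h2 := (hy v).2.1 x h
      rw [famLab_of_mem hdisj h1 h2.1, Option.some.injEq]
      have h3 := chk_const hconn hy h
      refine Prod.ext rfl (Prod.ext ?_ ?_)
      · funext u
        simp only [rst]
        by_cases hu : u ∈ supp x.1
        · rw [if_pos hu]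
          exact (((hy u).2.1 x (h3 u hu)).2.2.1).symm
        · rw [if_neg hu]
          exact (h2.2.1 u hu).1.symm
      · funext u
        simp only [rst]
        by_cases hu : u ∈ supp x.1
        · rw [if_pos hu]
          exact (((hy u).2.1 x (h3 u hu)).2.2.2).symm
        · rw [if_neg hu]
          exact (h2.2.1 u hu).2.symm
  · intro D hD
    simp only [Finset.mem_filter, Finset.mem_univ, true_and] at hD
    obtain ⟨hD, -⟩ := hD
    have hinj : ∀ i ∈ D, ∀ j ∈ D, root i = root j → i = j := by
      intro i hi j hj h
      by_contra hne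
      exact Finset.disjoint_left.1 (hD i hi j hj hne) (hroot i) (by rw [h]; exact hroot j)
    have h1 : ∏ i ∈ D, g i s s' = ∏ v ∈ D.image root, rtf root g v (famLab supp z s s' D v) := by
      rw [Finset.prod_image hinj]
      refine Finset.prod_congr rfl (fun i hi => ?_)
      rw [famLab_of_mem hD hi (hroot i)]
      simp only [rtf, if_true]
      apply hg
      intro u hu
      simp only [rst]
      rw [if_pos hu, if_pos hu]
      exact ⟨rfl, rfl⟩
    rw [h1]
    congr 1
    apply Finset.prod_subset (Finset.subset_univ _)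
    intro v _ hv
    rcases famLab_cases (z := z) (s := s) (s' := s') hD v with ⟨i, hi, hvi, h2⟩ | ⟨_, h2⟩
    · rw [h2]
      simp only [rtf]
      rw [if_neg]
      intro h3
      exact hv (Finset.mem_image.2 ⟨i, hi, h3.symm⟩)
    · rw [h2]
      rfl

end fam

section abstract

/-- several slices -/
theorem slices_sum {A B : Type} [Fintype A] [Fintype B] [DecidableEq A] (p : ℕ)
    (w : Fin p → A → ℂ) (g : Fin p → B → ℂ) (e : Fin p → B → A)
    (h : ∀ j (Φ : A → ℂ), ∑ a, w j a * Φ a = ∑ b, g j b * Φ (e j b)) (Φ : (Fin p → A) → ℂ) :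
    ∑ a : Fin p → A, (∏ j, w j (a j)) * Φ a =
      ∑ b : Fin p → B, (∏ j, g j (b j)) * Φ (fun j => e j (b j)) := by
  classical
  have h1 : ∀ j a, w j a = ∑ b, if e j b = a then g j b else 0 := by
    intro j a
    have h2 := h j (fun x => if x = a then 1 else 0)
    simp only [mul_ite, mul_one, mul_zero, Finset.sum_ite_eq', Finset.mem_univ, if_true] at h2
    exact h2
  calc ∑ a : Fin p → A, (∏ j, w j (a j)) * Φ a
      = ∑ a : Fin p → A, (∑ b : Fin p → B, if (fun j => e j (b j)) = a then ∏ j, g j (b j) else 0) *
          Φ a := by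
        refine Finset.sum_congr rfl (fun a _ => ?_)
        congr 1
        simp only [h1]
        rw [Finset.prod_univ_sum, Fintype.piFinset_univ]
        refine Finset.sum_congr rfl (fun b _ => ?_)
        by_cases hb : (fun j => e j (b j)) = a
        · rw [if_pos hb]
          refine Finset.prod_congr rfl (fun j _ => ?_)
          rw [if_pos (congrFun hb j)]
        · rw [if_neg hb]
          obtain ⟨j, hj⟩ : ∃ j, e j (b j) ≠ a j := by
            by_contra hcon
            push Not at hcon
            exact hb (funext hcon)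
          exact Finset.prod_eq_zero (Finset.mem_univ j) (if_neg hj)
    _ = ∑ b : Fin p → B, ∑ a : Fin p → A, if (fun j => e j (b j)) = a then
          (∏ j, g j (b j)) * Φ a else 0 := by
        rw [Finset.sum_comm]
        refine Finset.sum_congr rfl (fun a _ => ?_)
        rw [Finset.sum_mul]
        refine Finset.sum_congr rfl (fun b _ => ?_)
        rw [ite_mul, zero_mul]
    _ = _ := by
        refine Finset.sum_congr rfl (fun b _ => ?_)
        rw [Finset.sum_ite_eq]
        rw [if_pos (Finset.mem_univ _)]

variable {n : Type} [Fintype n] [DecidableEq n]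

/-- a product of matrices as a sum over paths -/
theorem path_prod (p : ℕ) (M : Fin p → Matrix n n ℂ) (s s' : n) :
    (List.ofFn M).prod s s' = ∑ t : Fin (p + 1) → n,
      if t 0 = s ∧ t (Fin.last p) = s' then ∏ j : Fin p, M j (t j.castSucc) (t j.succ) else 0 := by
  induction p generalizing s with
  | zero =>
    rw [List.ofFn_zero, List.prod_nil, Matrix.one_apply]
    by_cases h : s = s'
    · subst h
      rw [if_pos rfl, Finset.sum_eq_single (fun _ => s)]
      · rw [if_pos ⟨rfl, rfl⟩]
        simp
      · intro t _ ht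
        rw [if_neg]
        rintro ⟨h1, -⟩
        apply ht
        funext i
        have hi : i = 0 := Fin.ext (by omega)
        rw [hi, h1]
      · intro h1
        exact absurd (Finset.mem_univ _) h1
    · rw [if_neg h]
      symm
      apply Finset.sum_eq_zero
      intro t _
      rw [if_neg]
      rintro ⟨h1, h2⟩
      apply h
      rw [← h1, ← h2]
      congr 1
  | succ p ih =>
    rw [List.ofFn_succ, List.prod_cons, Matrix.mul_apply]
    have hR : (∑ t : Fin (p + 1 + 1) → n, if t 0 = s ∧ t (Fin.last (p + 1)) = s' then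
        ∏ j : Fin (p + 1), M j (t j.castSucc) (t j.succ) else 0) =
        ∑ t : Fin (p + 1) → n, if t (Fin.last p) = s' then
          M 0 s (t 0) * ∏ j : Fin p, M j.succ (t j.castSucc) (t j.succ) else 0 := by
      rw [← (Fin.consEquiv (fun _ : Fin (p + 1 + 1) => n)).sum_comp, Fintype.sum_prod_type]
      rw [Finset.sum_eq_single s]
      · refine Finset.sum_congr rfl (fun t _ => ?_)
        simp only [Fin.consEquiv_apply]
        rw [Fin.prod_univ_succ]
        have e1 : (Fin.cons s t : Fin (p + 1 + 1) → n) (Fin.last (p + 1)) = t (Fin.last p) := by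
          rw [← Fin.succ_last, Fin.cons_succ]
        have e2 : (Fin.cons s t : Fin (p + 1 + 1) → n) 0 = s := Fin.cons_zero _ _
        have e3 : ∀ j : Fin p, M j.succ ((Fin.cons s t : Fin (p + 1 + 1) → n) j.succ.castSucc)
            ((Fin.cons s t : Fin (p + 1 + 1) → n) j.succ.succ) =
            M j.succ (t j.castSucc) (t j.succ) := by
          intro j
          rw [Fin.cons_succ, ← Fin.succ_castSucc, Fin.cons_succ]
        have e4 : (Fin.cons s t : Fin (p + 1 + 1) → n) (0 : Fin (p + 1)).castSucc = s := e2
        have e5 : (Fin.cons s t : Fin (p + 1 + 1) → n) (0 : Fin (p + 1)).succ = t 0 :=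
          Fin.cons_succ _ _ _
        rw [e1, e2, Finset.prod_congr rfl (fun j _ => e3 j), e4, e5]
        by_cases h2 : t (Fin.last p) = s'
        · rw [if_pos h2, if_pos ⟨rfl, h2⟩]
        · rw [if_neg h2, if_neg (fun h3 => h2 h3.2)]
      · intro x _ hx
        apply Finset.sum_eq_zero
        intro t _
        simp only [Fin.consEquiv_apply]
        rw [if_neg]
        rintro ⟨h1, -⟩
        exact hx h1
      · intro h1
        exact absurd (Finset.mem_univ _) h1
    rw [hR]
    have e : ∀ x : n, M 0 s x * (List.ofFn (fun i => M i.succ)).prod x s' =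
        ∑ t : Fin (p + 1) → n, if x = t 0 then (if t (Fin.last p) = s' then
          M 0 s (t 0) * ∏ j : Fin p, M j.succ (t j.castSucc) (t j.succ) else 0) else 0 := by
      intro x
      rw [ih, Finset.mul_sum]
      refine Finset.sum_congr rfl (fun t _ => ?_)
      by_cases h1 : x = t 0
      · subst h1
        rw [if_pos rfl]
        by_cases h2 : t (Fin.last p) = s'
        · rw [if_pos ⟨rfl, h2⟩, if_pos h2]
        · rw [if_neg (fun h3 => h2 h3.2), if_neg h2, mul_zero]
      · rw [if_neg h1, if_neg (fun h3 => h1 h3.1.symm), mul_zero]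
    rw [Finset.sum_congr rfl (fun x _ => e x), Finset.sum_comm]
    refine Finset.sum_congr rfl (fun t _ => ?_)
    rw [Finset.sum_ite_eq' Finset.univ (t 0)]
    rw [if_pos (Finset.mem_univ _)]

end abstract

end Pool.Agent.Hhelper68.AM
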