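import Pool.Agent.Hhelper68.AM.Assemble
import Pool.Agent.Hhelper68.CS.GlueC
import Pool.Agent.Hhelper17.AM.Defs

/-!
Counting the labels of a given size, and the entries of the operator of the allowed configurations.
-/

set_option autoImplicit false
set_option linter.unusedSectionVars false
set_option synthInstance.maxSize 2048

open scoped BigOperators
open Matrix

namespace Pool.Agent.Hhelper68.AM

open Pool.Agent.Hhelper96.PEPS Pool.Agent.Hhelper68.CS Pool.Agent.Hhelper17.AM

section count

variable {N d : ℕ} [NeZero N] {ι : Type} [Fintype ι] [DecidableEq ι]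

open Classical in
/-- labels of size `k` -/
theorem count_labels {supp : ι → Finset (Site N)} {sz : ι → ℕ} (z : Fin d) (v : Site N)
    {k cnt c : ℕ} (hk : 1 ≤ k)
    (h1 : (Finset.univ.filter (fun i => v ∈ supp i ∧ sz i = k)).card ≤ cnt)
    (h2 : ∀ i, sz i = k → (supp i).card ≤ c) :
    ((A0 supp z v).filter (fun l => szL sz l = k)).card ≤ cnt * (d ^ c * d ^ c) := by
  have hd : 1 ≤ d := by
    have := z.2
    omega
  obtain ⟨F, hF⟩ : ∃ F : (i : ι) → Finset (Site N → Fin d), F = fun i =>
    Finset.univ.filter (fun a : Site N → Fin d => ∀ u, u ∉ supp i → a u = z) := ⟨_, rfl⟩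
  have hFc : ∀ i, sz i = k → (F i).card ≤ d ^ c := by
    intro i hi
    have h3 : (F i).card ≤ Fintype.card (supp i → Fin d) := by
      rw [← Finset.card_univ]
      apply Finset.card_le_card_of_injOn (fun a (u : supp i) => a u)
      · intro a _
        exact Finset.mem_univ _
      · intro a ha a' ha' h
        rw [hF] at ha ha'
        simp only [Finset.coe_filter, Finset.mem_univ, true_and, Set.mem_ofPred_eq] at ha ha'
        funext u
        by_cases hu : u ∈ supp i
        · exact congrFun h ⟨u, hu⟩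
        · rw [ha u hu, ha' u hu]
    rw [Fintype.card_fun, Fintype.card_fin, Fintype.card_coe] at h3
    exact h3.trans (Nat.pow_le_pow_right hd (h2 i hi))
  have h3 : (A0 supp z v).filter (fun l => szL sz l = k) ⊆
      ((Finset.univ.filter (fun i => v ∈ supp i ∧ sz i = k)).biUnion
        (fun i => ({i} : Finset ι) ×ˢ (F i ×ˢ F i))).image some := by
    intro l hl
    rw [Finset.mem_filter] at hl
    obtain ⟨hl, hs⟩ := hl
    unfold A0 at hl
    rw [Finset.mem_insert, Finset.mem_image] at hl
    rcases hl with rfl | ⟨x, hx, rfl⟩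
    · rw [szL_none] at hs
      omega
    · rw [szL_some] at hs
      rw [Finset.mem_filter] at hx
      refine Finset.mem_image.2 ⟨x, ?_, rfl⟩
      simp only [Finset.mem_biUnion, Finset.mem_filter, Finset.mem_univ, true_and,
        Finset.mem_product, Finset.mem_singleton]
      refine ⟨x.1, ⟨hx.2.1, hs⟩, rfl, ?_, ?_⟩
      · rw [hF]
        simp only [Finset.mem_filter, Finset.mem_univ, true_and]
        exact fun u hu => (hx.2.2 u hu).1
      · rw [hF]
        simp only [Finset.mem_filter, Finset.mem_univ, true_and]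
        exact fun u hu => (hx.2.2 u hu).2
  calc ((A0 supp z v).filter (fun l => szL sz l = k)).card ≤ _ := Finset.card_le_card h3
    _ ≤ _ := Finset.card_image_le
    _ ≤ (Finset.univ.filter (fun i => v ∈ supp i ∧ sz i = k)).card * (d ^ c * d ^ c) := by
      apply Finset.card_biUnion_le_card_mul
      intro i hi
      rw [Finset.mem_filter] at hi
      rw [Finset.card_product, Finset.card_product, Finset.card_singleton, one_mul]
      exact Nat.mul_le_mul (hFc i hi.2.2) (hFc i hi.2.2)
    _ ≤ cnt * (d ^ c * d ^ c) := Nat.mul_le_mul_right _ h1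

open Classical in
/-- labels of size `0` -/
theorem count_labels_zero {supp : ι → Finset (Site N)} {sz : ι → ℕ} (z : Fin d) (v : Site N)
    (hsz : ∀ i, 1 ≤ sz i) :
    ((A0 supp z v).filter (fun l => szL sz l = 0)).card ≤ 1 := by
  have h : (A0 supp z v).filter (fun l => szL sz l = 0) ⊆ {none} := by
    intro l hl
    rw [Finset.mem_filter] at hl
    rw [Finset.mem_singleton]
    cases l with
    | none => rfl
    | some x =>
      have h1 := hl.2
      rw [szL_some] at h1
      have := hsz x.1
      omega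
  exact (Finset.card_le_card h).trans (by simp)

end count

/-- the size of the label alphabet per unit of cluster size -/
def kap1 (d r : ℕ) : ℕ := (r ^ 2 + 1) * 2 * 2 ^ (r ^ 4) * (d ^ (r ^ 2) * d ^ (r ^ 2))

theorem kap1_pos {d r : ℕ} (hd : 1 ≤ d) : 1 ≤ kap1 d r := by
  unfold kap1
  have h1 : 0 < d ^ (r ^ 2) := pow_pos hd _
  change 0 < _
  positivity

theorem kap1_pow {d r k : ℕ} (hk : 1 ≤ k) :
    (r ^ 2 * k * 2 ^ (r ^ 4 * k)) * (d ^ (r ^ 2 * k) * d ^ (r ^ 2 * k)) ≤ kap1 d r ^ k := by
  have h1 : r ^ 2 ≤ (r ^ 2 + 1) ^ k :=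
    (Nat.le_succ _).trans (Nat.le_self_pow (by omega) _)
  have h2 : k ≤ 2 ^ k := Nat.lt_two_pow_self.le
  calc (r ^ 2 * k * 2 ^ (r ^ 4 * k)) * (d ^ (r ^ 2 * k) * d ^ (r ^ 2 * k))
      ≤ ((r ^ 2 + 1) ^ k * 2 ^ k * 2 ^ (r ^ 4 * k)) * (d ^ (r ^ 2 * k) * d ^ (r ^ 2 * k)) :=
        Nat.mul_le_mul_right _ (Nat.mul_le_mul_right _ (Nat.mul_le_mul h1 h2))
    _ = kap1 d r ^ k := by
        unfold kap1
        simp only [mul_pow, ← pow_mul]

section entries

variable {V I : Type} [Fintype V] [DecidableEq V] [Fintype I] [DecidableEq I] {d : ℕ}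
  {nb : I → Finset I} {sp : I → Finset V} {h : I → Matrix (V → Fin d) (V → Fin d) ℂ}
  {Cl : Type} [DecidableEq Cl]

/-- the clusters -/
abbrev Clu (nb : I → Finset I) (m : ℕ) : Type := {C : Finset I // ConnF nb C ∧ C.card ≤ m}

open Classical in
/-- the operator of the allowed configurations, for matrices -/
noncomputable def cutM (nb : I → Finset I) (sp : I → Finset V) (cl : ℕ → V → Cl) (K : ℕ)
    (th : ℕ → ℕ) (h : I → Matrix (V → Fin d) (V → Fin d) ℂ) (t : ℝ) (m p : ℕ) :
    Matrix (V → Fin d) (V → Fin d) ℂ :=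
  ∑ D ∈ Fintype.piFinset (fun _ : Fin p => smallF nb m (Finset.univ : Finset I)),
    if Allow K cl th (cont sp cl D) then
      (List.ofFn (fun j => clM h t ((D j).biUnion id))).prod else 0

open scoped Matrix.Norms.L2Operator in
theorem cutG_eq_cutM (nb : I → Finset I) (sp : I → Finset V) (cl : ℕ → V → Cl) (K : ℕ)
    (th : ℕ → ℕ) (h : I → Matrix (V → Fin d) (V → Fin d) ℂ) (t : ℝ) (m p : ℕ) :
    cutG nb sp cl K th h t m p = cutM nb sp cl K th h t m p := rfl

/-- separated families and families with disjoint supports -/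
theorem sep_map {m : ℕ} (hnb : ∀ a b, b ∉ nb a ↔ Disjoint (sp a) (sp b))
    {D : Finset (Clu nb m)} (hD : ∀ i ∈ D, ∀ j ∈ D, i ≠ j →
      Disjoint (suppC sp i.1) (suppC sp j.1)) :
    D.map (Function.Embedding.subtype _) ∈ smallF nb m Finset.univ := by
  rw [mem_smallF]
  refine ⟨⟨?_, ?_⟩, ?_, ?_⟩
  · intro C hC
    obtain ⟨x, -, rfl⟩ := Finset.mem_map.1 hC
    exact x.2.1
  · intro C hC C' hC' hne a ha b hb hab
    obtain ⟨x, hx, rfl⟩ := Finset.mem_map.1 hC
    obtain ⟨x', hx', rfl⟩ := Finset.mem_map.1 hC'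
    have h1 := hD x hx x' hx' fun e => hne (by rw [e])
    have h2 : Disjoint (sp a) (sp b) := by
      rw [Finset.disjoint_left] at h1 ⊢
      exact fun u hu hu' => h1 (mem_suppC.2 ⟨a, ha, hu⟩) (mem_suppC.2 ⟨b, hb, hu'⟩)
    exact (hnb a b).2 h2 hab
  · intro C _
    exact Finset.subset_univ _
  · intro C hC
    obtain ⟨x, -, rfl⟩ := Finset.mem_map.1 hC
    exact x.2.2

end entries

section torus

variable {N d : ℕ} [NeZero N] {Cl : Type} [DecidableEq Cl] {nb : Site N → Finset (Site N)}
  {sp : Site N → Finset (Site N)} {h : Site N → Matrix (Site N → Fin d) (Site N → Fin d) ℂ}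

open Classical in
/-- the contents -/
theorem cont_map {cl : ℕ → Site N → Cl} {m p : ℕ} (D : Fin p → Finset (Clu nb m)) (c : Cl) :
    cont sp cl (fun j => (D j).map (Function.Embedding.subtype _)) c =
      ct (fun i : Clu nb m => suppC sp i.1) cl (fun i => Nat.log 2 i.1.card)
        (fun i => i.1.card) D c := by
  unfold cont ct
  refine Finset.sum_congr rfl (fun j _ => ?_)
  rw [Finset.sum_map]
  refine Finset.sum_congr rfl (fun i _ => ?_)
  have e : c ∈ NC sp cl i.1 ↔ ∃ u ∈ suppC sp i.1, cl (Nat.log 2 i.1.card) u = c := by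
    unfold NC
    rw [Finset.mem_image]
  by_cases h1 : ∃ u ∈ suppC sp i.1, cl (Nat.log 2 i.1.card) u = c
  · rw [if_pos h1]
    exact if_pos (e.2 h1)
  · rw [if_neg h1]
    exact if_neg (fun h2 => h1 (e.1 h2))

open Classical in
/-- **the entries of the operator of the allowed configurations** -/
theorem cutM_apply (hself : ∀ i, i ∈ nb i) (hnb : ∀ a b, b ∉ nb a ↔ Disjoint (sp a) (sp b))
    (hact : ∀ i, ActOn (sp i) (h i)) (cl : ℕ → Site N → Cl) (K : ℕ) (th : ℕ → ℕ) (t : ℝ)
    (m p : ℕ) (s s' : Site N → Fin d) :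
    cutM nb sp cl K th h t m p s s' = ∑ D : Fin p → Finset (Clu nb m),
      if Allow K cl th (ct (fun i : Clu nb m => suppC sp i.1) cl (fun i => Nat.log 2 i.1.card)
        (fun i => i.1.card) D) then
        ∑ τ : Fin (p + 1) → (Site N → Fin d), (if τ 0 = s ∧ τ (Fin.last p) = s' then
          ∏ j : Fin p, famG (fun i : Clu nb m => suppC sp i.1)
            (fun i s s' => gC sp h t i.1 s s') (τ j.castSucc) (τ j.succ) (D j) else 0) else 0 := by
  have hR : (∑ D : Fin p → Finset (Clu nb m),
      if Allow K cl th (ct (fun i : Clu nb m => suppC sp i.1) cl (fun i => Nat.log 2 i.1.card)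
        (fun i => i.1.card) D) then
        ∑ τ : Fin (p + 1) → (Site N → Fin d), (if τ 0 = s ∧ τ (Fin.last p) = s' then
          ∏ j : Fin p, famG (fun i : Clu nb m => suppC sp i.1)
            (fun i s s' => gC sp h t i.1 s s') (τ j.castSucc) (τ j.succ) (D j) else 0) else 0) =
      ∑ D ∈ Finset.univ.filter (fun D : Fin p → Finset (Clu nb m) =>
        ∀ j, DisjF (fun i : Clu nb m => suppC sp i.1) (D j)),
      if Allow K cl th (ct (fun i : Clu nb m => suppC sp i.1) cl (fun i => Nat.log 2 i.1.card)
        (fun i => i.1.card) D) then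
        ∑ τ : Fin (p + 1) → (Site N → Fin d), (if τ 0 = s ∧ τ (Fin.last p) = s' then
          ∏ j : Fin p, famG (fun i : Clu nb m => suppC sp i.1)
            (fun i s s' => gC sp h t i.1 s s') (τ j.castSucc) (τ j.succ) (D j) else 0) else 0 := by
    symm
    apply Finset.sum_subset (Finset.filter_subset _ _)
    intro D _ hD
    simp only [Finset.mem_filter, Finset.mem_univ, true_and, not_forall] at hD
    obtain ⟨j, hj⟩ := hD
    split_ifs
    · apply Finset.sum_eq_zero
      intro τ _
      split_ifs
      · refine Finset.prod_eq_zero (Finset.mem_univ j) ?_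
        unfold famG
        exact if_neg (fun h1 => hj h1.1)
      · rfl
    · rfl
  rw [hR]
  unfold cutM
  rw [Matrix.sum_apply]
  symm
  refine Finset.sum_bij' (fun D _ => fun j => (D j).map (Function.Embedding.subtype _))
    (fun D _ => fun j => (D j).subtype _) ?_ ?_ ?_ ?_ ?_
  · intro D hD
    simp only [Finset.mem_filter, Finset.mem_univ, true_and] at hD
    rw [Fintype.mem_piFinset]
    exact fun j => sep_map hnb (hD j)
  · intro D hD
    rw [Fintype.mem_piFinset] at hD
    simp only [Finset.mem_filter, Finset.mem_univ, true_and]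
    intro j x hx x' hx' hne
    refine sep_disjoint (fun a b => (hnb a b).1) (mem_smallF.1 (hD j)).1
      (Finset.mem_subtype.1 hx) (Finset.mem_subtype.1 hx') ?_
    exact fun e => hne (Subtype.ext e)
  · intro D _
    funext j
    ext x
    simp only [Finset.mem_subtype, Finset.mem_map, Function.Embedding.subtype_apply]
    constructor
    · rintro ⟨y, hy, e⟩
      rwa [← Subtype.ext e]
    · intro hx
      exact ⟨x, hx, rfl⟩
  · intro D hD
    rw [Fintype.mem_piFinset] at hD
    funext j
    refine Finset.subtype_map_of_mem fun C hC => ?_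
    have h1 := mem_smallF.1 (hD j)
    exact ⟨h1.1.1 C hC, h1.2.2 C hC⟩
  · intro D hD
    simp only [Finset.mem_filter, Finset.mem_univ, true_and] at hD
    have e1 : cont sp cl (fun j => (D j).map (Function.Embedding.subtype _)) =
        ct (fun i : Clu nb m => suppC sp i.1) cl (fun i => Nat.log 2 i.1.card)
          (fun i => i.1.card) D := funext fun c => cont_map D c
    rw [e1]
    by_cases hA : Allow K cl th (ct (fun i : Clu nb m => suppC sp i.1) cl
        (fun i => Nat.log 2 i.1.card) (fun i => i.1.card) D)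
    · rw [if_pos hA, if_pos hA, path_prod]
      refine Finset.sum_congr rfl (fun τ _ => ?_)
      by_cases h2 : τ 0 = s ∧ τ (Fin.last p) = s'
      · rw [if_pos h2, if_pos h2]
        refine Finset.prod_congr rfl (fun j _ => ?_)
        have hS : SepF nb ((D j).map (Function.Embedding.subtype _)) :=
          (mem_smallF.1 (sep_map hnb (hD j))).1
        rw [clM_fam hself (fun a b => (hnb a b).1) hact t hS, Finset.prod_map]
        unfold famG
        have e2 : (∀ u, (∀ C ∈ (D j).map (Function.Embedding.subtype _), u ∉ suppC sp C) →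
            τ j.castSucc u = τ j.succ u) ↔
            (DisjF (fun i : Clu nb m => suppC sp i.1) (D j) ∧
              ∀ u, (∀ i ∈ D j, u ∉ suppC sp i.1) → τ j.castSucc u = τ j.succ u) := by
          constructor
          · intro h3
            refine ⟨hD j, fun u hu => h3 u ?_⟩
            rw [Finset.forall_mem_map]
            exact hu
          · rintro ⟨-, h3⟩ u hu
            rw [Finset.forall_mem_map] at hu
            exact h3 u hu
        by_cases h3 : DisjF (fun i : Clu nb m => suppC sp i.1) (D j) ∧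
              ∀ u, (∀ i ∈ D j, u ∉ suppC sp i.1) → τ j.castSucc u = τ j.succ u
        · rw [if_pos h3, if_pos (e2.2 h3)]
          rfl
        · rw [if_neg h3, if_neg (fun h4 => h3 (e2.1 h4))]
      · rw [if_neg h2, if_neg h2]
    · rw [if_neg hA, if_neg hA]
      rfl

end torus

end Pool.Agent.Hhelper68.AM
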